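import Pool.Agent.Helper25_CON.PDLem

/-!
Squad CON, module G_RK: the ranks of frames
-/

noncomputable section

namespace Pool.Agent.CON.H9

open Pool.Agent.CON

theorem card_le {M : Type} [AddCommGroup M] {n d : ℕ} {v : Fin n → M} {c : Fin d → M}
    (hc : LinearIndependent ℤ c) (h : ∀ i, c i ∈ Submodule.span ℤ (Set.range v)) : d ≤ n := by
  classical
  have h1 : Set.range c ≤ Submodule.span ℤ (Set.range v) := by
    rintro _ ⟨i, rfl⟩
    exact h i
  have h2 := linearIndependent_le_span' c hc (Set.range v) h1
  have h3 : Fintype.card (Set.range v) ≤ n := by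
    have := Fintype.card_range_le v
    simpa using this
  rw [Cardinal.mk_fin] at h2
  have h4 : d ≤ Fintype.card (Set.range v) := by exact_mod_cast h2
  omega

theorem g_rk : G_RK := by
  intro M _ b C s hb hC
  have hs : s ≠ 0 := hC.pos.ne'
  refine ⟨?_, ?_, ?_, ?_⟩
  · intro n v hv
    rw [Fintype.linearIndependent_iff]
    intro z hz
    have key : ∀ j, z j = - ∑ i, z i := by
      intro j
      have h1 : b (∑ i, z i • v i) (v j) = 0 := by rw [hz, hb.zero_left]
      rw [hb.sum_left] at h1
      have h2 : ∀ i, b (z i • v i) (v j) = s * z i + (if i = j then s * z j else 0) := by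
        intro i
        rw [hb.zsmul_left]
        by_cases hij : i = j
        · subst hij
          rw [if_pos rfl, hC.norm _ (hv.1 i)]
          ring
        · rw [if_neg hij, hv.2 i j hij]
          ring
      simp only [h2] at h1
      rw [Finset.sum_add_distrib, ← Finset.mul_sum] at h1
      simp only [Finset.sum_ite_eq', Finset.mem_univ, if_true] at h1
      have h3 : s * (∑ i, z i + z j) = 0 := by rw [mul_add]; exact h1
      rcases mul_eq_zero.mp h3 with h4 | h4
      · exact absurd h4 hs
      · linarith
    have h5 : ∑ i, z i = - ((n : ℤ) * ∑ i, z i) := by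
      have h6 : ∑ j, z j = ∑ _j : Fin n, (- ∑ i, z i) := Finset.sum_congr rfl fun j _ => key j
      rw [Finset.sum_const, Finset.card_univ, Fintype.card_fin, nsmul_eq_mul] at h6
      linarith
    have h7 : ((n : ℤ) + 1) * ∑ i, z i = 0 := by linarith
    have h8 : ∑ i, z i = 0 := by
      rcases mul_eq_zero.mp h7 with h | h
      · omega
      · exact h
    intro i
    rw [key i, h8, neg_zero]
  · intro n F hF
    rw [Fintype.linearIndependent_iff]
    intro z hz j
    have h1 : b (∑ i, z i • F i) (F j) = 0 := by rw [hz, hb.zero_left]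
    rw [hb.sum_left] at h1
    have h2 : ∀ i, b (z i • F i) (F j) = (if i = j then 4 * s * z j else 0) := by
      intro i
      rw [hb.zsmul_left]
      by_cases hij : i = j
      · subst hij
        rw [if_pos rfl, hF.1 i]
        ring
      · rw [if_neg hij, hF.2.1 i j hij]
        ring
    simp only [h2, Finset.sum_ite_eq', Finset.mem_univ, if_true] at h1
    rcases mul_eq_zero.mp h1 with h | h
    · omega
    · exact h
  · intro n d v _ hv ⟨c, hc, hc'⟩
    refine card_le (v := v) hc' fun i => ?_
    have hm : ∀ k, v k ∈ Submodule.span ℤ (Set.range v) := fun k =>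
      Submodule.subset_span ⟨k, rfl⟩
    rcases hv _ (hc i) with ⟨k, h | h⟩ | ⟨k, l, _, h⟩
    · rw [h]; exact hm k
    · rw [h]; exact Submodule.neg_mem _ (hm k)
    · rw [h]; exact Submodule.sub_mem _ (hm k) (hm l)
  · intro n d F _ hF ⟨c, hc, hc'⟩
    have h2 : LinearIndependent ℤ (fun i => (2 : ℤ) • c i) := by
      rw [Fintype.linearIndependent_iff] at hc' ⊢
      intro z hz i
      have h3 := hc' (fun i => z i * 2) (by
        rw [← hz]
        exact Finset.sum_congr rfl fun i _ => mul_smul _ _ _) i
      omega
    refine card_le h2 (v := F) fun i => ?_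
    have hm : ∀ k, F k ∈ Submodule.span ℤ (Set.range F) := fun k =>
      Submodule.subset_span ⟨k, rfl⟩
    obtain ⟨k, l, _, h | h | h⟩ := hF _ (hc i)
    · simp only [h]; exact Submodule.add_mem _ (hm k) (hm l)
    · simp only [h]; exact Submodule.sub_mem _ (hm k) (hm l)
    · simp only [h]; exact Submodule.neg_mem _ (Submodule.add_mem _ (hm k) (hm l))

end Pool.Agent.CON.H9

end
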